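import Pool.Agent.helper65.GD.Spec

/-!
# Row gdm:CO1
-/

set_option autoImplicit false

namespace Pool.Agent.GD

open Finset Metric Filter Topology

/-- Row CO1. -/
theorem CO1 : CO1_stmt := by
  intro f hf z hz
  have h1 := Complex.hasSum_taylorSeries_on_ball hf hz
  have h2 : (fun n : ℕ => N2b689f5b.coeff f n * z ^ n) =
      fun n : ℕ => ((n.factorial : ℂ)⁻¹) • (z - 0) ^ n • iteratedDeriv n f 0 := by
    funext n
    unfold N2b689f5b.coeff
    rw [sub_zero, smul_eq_mul, smul_eq_mul, div_eq_mul_inv]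
    ring
  show HasSum (fun n : ℕ => N2b689f5b.coeff f n * z ^ n) (f z)
  rw [h2]
  exact h1

end Pool.Agent.GD
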